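import Pool.Agent.W394.BQN.Stm

/-! Task BQN-LIFT: lifting matrices over polynomial rings. -/

set_option autoImplicit false

open Polynomial

noncomputable section

namespace Pool.Agent.W563.BQN

open BQ Pool.Agent.W394.BQN

section qq

variable {A W : Type} [CommRing A] [IsDomain A] [CommRing W] [IsDomain W]

theorem map_S2 (q : A →+* W) {f : A[X]} (hf : f ∈ S2 A) : f.map q ∈ S2 W := by
  have hm : (f.map q).Monic := Monic.map q hf.1
  refine ⟨hm, ?_⟩
  show (f.map q).trailingCoeff = 1
  have ht : f.trailingCoeff = 1 := hf.2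
  have h1 : (f.map q).coeff f.natTrailingDegree = 1 := by
    rw [coeff_map]
    show q f.trailingCoeff = 1
    rw [ht, map_one]
  have h2 : (f.map q).natTrailingDegree = f.natTrailingDegree := by
    refine le_antisymm (natTrailingDegree_le_of_ne_zero (by rw [h1]; exact one_ne_zero)) ?_
    refine le_natTrailingDegree hm.ne_zero fun m hm' => ?_
    rw [coeff_map, coeff_eq_zero_of_lt_natTrailingDegree hm', map_zero]
  unfold trailingCoeff
  rw [h2, h1]

/-- the map `A[X] → W[X] → VV W` -/
def qq (q : A →+* W) : A[X] →+* VV W :=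
  (algebraMap W[X] (VV W)).comp (mapRingHom q)

theorem qq_unit (q : A →+* W) (f : S2 A) : IsUnit (qq q f) :=
  IsLocalization.map_units (VV W) (⟨(f : A[X]).map q, map_S2 q f.2⟩ : S2 W)

/-- the induced map -/
def q₂ (q : A →+* W) : VV A →+* VV W :=
  IsLocalization.lift (M := S2 A) (qq_unit q)

theorem q₂_algebraMap (q : A →+* W) (p : A[X]) :
    q₂ q (algebraMap A[X] (VV A) p) = algebraMap W[X] (VV W) (p.map q) :=
  IsLocalization.lift_eq (qq_unit q) p

theorem q₂_surjective (q : A →+* W) (hq : Function.Surjective q) :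
    Function.Surjective (q₂ q) := by
  intro z
  obtain ⟨a, b, rfl⟩ := IsLocalization.exists_mk'_eq (S2 W) z
  obtain ⟨G, hG, hGb⟩ := E.lift_S2 q hq (b : W[X]) b.2.1 b.2.2
  obtain ⟨P, hP⟩ := Polynomial.map_surjective q hq a
  refine ⟨IsLocalization.mk' (VV A) P (⟨G, hG⟩ : S2 A), ?_⟩
  rw [q₂, IsLocalization.lift_mk'_spec]
  show algebraMap W[X] (VV W) (P.map q) = algebraMap W[X] (VV W) (G.map q) * _
  rw [hP, hGb, IsLocalization.mk'_spec']

end qq

open N in
theorem t_LIFT (h1 : S_LIFT0) (h2 : S_VV) : S_LIFT := by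
  intro n
  induction n with
  | zero =>
    intro A _ _ W _ _ _ hW q hq s γ hγ
    set e := (MvPolynomial.isEmptyRingEquiv W (Fin 0)) with he
    obtain ⟨Δ, hΔ, hΔγ⟩ := h1 W hW A q hq s (γ.map (e : MvPolynomial (Fin 0) W →+* W)) (by
      have : (e : MvPolynomial (Fin 0) W →+* W) γ.det = (γ.map _).det := RingHom.map_det _ _
      rw [← this, hγ, map_one])
    refine ⟨Δ.map (MvPolynomial.C : A →+* MvPolynomial (Fin 0) A), ?_, ?_⟩
    · have : (MvPolynomial.C : A →+* MvPolynomial (Fin 0) A) Δ.det = (Δ.map _).det :=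
        RingHom.map_det _ _
      rw [← this, hΔ, map_one]
    · ext1 i j
      have h1 := congrFun (congrFun hΔγ i) j
      simp only [Matrix.map_apply] at h1 ⊢
      rw [MvPolynomial.map_C, h1]
      exact e.symm_apply_apply (γ i j)
  | succ n ih =>
    intro A _ _ W _ _ _ hW q hq s γ hγ
    obtain ⟨ι', hL, hC, hX⟩ := locRel_mv (RingHom.id A) (algebraMap A[X] (VV A))
      (locRel_base A) n
    obtain ⟨τ, hLW, hCW, hXW⟩ := locRel_mv (RingHom.id W) (algebraMap W[X] (VV W))
      (locRel_base W) n
    have hcomm : (MvPolynomial.map (q₂ q)).comp ι' =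
        τ.comp (mapRingHom (MvPolynomial.map q)) := by
      apply Polynomial.ringHom_ext'
      · apply MvPolynomial.ringHom_ext
        · intro r
          have h1 := hC (C r)
          have h3 := hCW (C (q r))
          rw [Polynomial.map_C] at h1 h3
          simp only [RingHom.comp_apply, coe_mapRingHom, Polynomial.map_C]
          rw [h1, MvPolynomial.map_C, q₂_algebraMap, MvPolynomial.map_C, h3, Polynomial.map_C]
        · intro i
          simp only [RingHom.comp_apply, coe_mapRingHom, Polynomial.map_C]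
          rw [hX i, MvPolynomial.map_X, MvPolynomial.map_X, hXW i]
      · have h1 := hC X
        have h3 := hCW X
        rw [Polynomial.map_X] at h1 h3
        simp only [RingHom.comp_apply, coe_mapRingHom, Polynomial.map_X]
        rw [h1, MvPolynomial.map_C, q₂_algebraMap, h3, Polynomial.map_X]
    have hτ := hLW.inj
    set e := (MvPolynomial.finSuccEquiv W n) with he
    set γ₁ : Matrix (Fin s) (Fin s) (MvPolynomial (Fin n) W)[X] :=
      γ.map (e : MvPolynomial (Fin (n + 1)) W →+* (MvPolynomial (Fin n) W)[X]) with hγ₁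
    have hγ₁d : γ₁.det = 1 := by
      have : (e : MvPolynomial (Fin (n + 1)) W →+* (MvPolynomial (Fin n) W)[X]) γ.det =
        (γ.map _).det := RingHom.map_det _ _
      rw [hγ₁, ← this, hγ, map_one]
    obtain ⟨D, hD, hDγ⟩ := ih (VV A) (VV W) (h2 W hW) (q₂ q) (q₂_surjective q hq) s
      (γ₁.map τ) (by
        have : τ γ₁.det = (γ₁.map _).det := RingHom.map_det _ _
        rw [← this, hγ₁d, map_one])
    obtain ⟨f, hf, c, hc⟩ := common ((MvPolynomial.C : A →+* MvPolynomial (Fin n) A).comp
      (RingHom.id A)) ι' hL (α := (Fin s × Fin s) ⊕ (Fin s × Fin s))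
      (Sum.elim (fun p => D p.1 p.2) (fun p => D.adjugate p.1 p.2))
    set h : (MvPolynomial (Fin n) A)[X] := f.map ((MvPolynomial.C :
      A →+* MvPolynomial (Fin n) A).comp (RingHom.id A)) with hh
    have hmon : h.Monic := Monic.map _ hf.1
    set Γ : Matrix (Fin s) (Fin s) (MvPolynomial (Fin n) A)[X] := fun i j => c (Sum.inl (i, j))
      with hΓ
    set Γ' : Matrix (Fin s) (Fin s) (MvPolynomial (Fin n) A)[X] := fun i j => c (Sum.inr (i, j))
      with hΓ'
    have k1 : Γ.map ι' = ι' h • D := by
      ext1 i j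
      exact (hc (Sum.inl (i, j))).symm
    have k2 : Γ'.map ι' = ι' h • D.adjugate := by
      ext1 i j
      exact (hc (Sum.inr (i, j))).symm
    have k3 : Γ * Γ' = (h * h) • (1 : Matrix (Fin s) (Fin s) (MvPolynomial (Fin n) A)[X]) := by
      have h1 : (Γ * Γ').map ι' = ((h * h) • (1 : Matrix (Fin s) (Fin s)
          (MvPolynomial (Fin n) A)[X])).map ι' := by
        rw [Matrix.map_mul, k1, k2, map_smul_ring, Matrix.smul_mul, Matrix.mul_smul,
          Matrix.mul_adjugate, hD, one_smul, smul_smul, map_mul]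
        simp
      ext1 i j
      exact hL.inj (congrFun (congrFun h1 i) j)
    have k4 : Γ.map (mapRingHom (MvPolynomial.map q)) = (h.map (MvPolynomial.map q)) • γ₁ := by
      have h1 : (Γ.map (mapRingHom (MvPolynomial.map q))).map τ =
          ((h.map (MvPolynomial.map q)) • γ₁).map τ := by
        have h2 : (Γ.map (mapRingHom (MvPolynomial.map q))).map τ =
            (Γ.map ι').map (MvPolynomial.map (q₂ q)) := by
          ext1 i j
          exact (RingHom.congr_fun hcomm (Γ i j)).symm
        have e1 : (ι' h • D).map (MvPolynomial.map (q₂ q)) =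
            (MvPolynomial.map (q₂ q)) (ι' h) • D.map (MvPolynomial.map (q₂ q)) := by
          ext1 i j
          exact RingHom.map_mul (MvPolynomial.map (q₂ q)) (ι' h) (D i j)
        have e2 : (MvPolynomial.map (q₂ q)) (ι' h) = τ (h.map (MvPolynomial.map q)) :=
          RingHom.congr_fun hcomm h
        rw [h2, k1, e1, hDγ, e2]
        exact (map_smul_ring τ _ _).symm
      ext1 i j
      exact hτ (congrFun (congrFun h1 i) j)
    obtain ⟨Δ, hΔ1, hΔ2⟩ := lift_var (MvPolynomial.map q) (MvPolynomial.map_surjective q hq)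
      γ₁ hγ₁d h hmon Γ Γ' k3 k4 (fun δ hδ => ih A W hW q hq s δ hδ)
    set e' := (MvPolynomial.finSuccEquiv A n) with he'
    refine ⟨Δ.map (e'.symm : (MvPolynomial (Fin n) A)[X] →+* MvPolynomial (Fin (n + 1)) A),
      ?_, ?_⟩
    · have : (e'.symm : (MvPolynomial (Fin n) A)[X] →+* MvPolynomial (Fin (n + 1)) A) Δ.det =
        (Δ.map _).det := RingHom.map_det _ _
      rw [← this, hΔ1, map_one]
    · have hcomm2 : (e : MvPolynomial (Fin (n + 1)) W →+* (MvPolynomial (Fin n) W)[X]).comp
          (MvPolynomial.map q) = (mapRingHom (MvPolynomial.map q)).comp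
          (e' : MvPolynomial (Fin (n + 1)) A →+* (MvPolynomial (Fin n) A)[X]) := by
        apply MvPolynomial.ringHom_ext
        · intro r
          simp [he, he', MvPolynomial.finSuccEquiv_apply]
        · intro i
          refine Fin.cases ?_ (fun i => ?_) i
          · simp [he, he', MvPolynomial.finSuccEquiv_apply]
          · simp [he, he', MvPolynomial.finSuccEquiv_apply]
      ext1 i j
      apply e.injective
      have h1 := RingHom.congr_fun hcomm2 (e'.symm (Δ i j))
      have h2 := congrFun (congrFun hΔ2 i) j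
      simp only [Matrix.map_apply] at h2 ⊢
      refine Eq.trans h1 ?_
      show mapRingHom (MvPolynomial.map q) (e' (e'.symm (Δ i j))) = _
      rw [AlgEquiv.apply_symm_apply, h2]
      rfl

end Pool.Agent.W563.BQN
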